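import Mathlib
import Pool.Agent.Lib.MP_05cdf2_gt.L.Conn

/-! MP_05cdf2_gt, stream N, part (BL) (helper49): the cocycles which vanish on the related pairs of a half space.

`IsC f`: `f : F g → F g → ℚ` is additive and `K`-invariant. `rD c`: a line of the curve `c`. `kk X c`, `ll X c`: adjacent
points outside and inside of `rD c` (for `c ∈ fr X`). `cn D`: the signed count `cnt D`, rational.
`ze_expand`: if `f` vanishes on the related pairs then `f x y = ∑ c ∈ fr X, f (kk X c) (ll X c) * cqc c x y`;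
`cqc_kl`: `cqc c' (kk X c) (ll X c) = [c = c']`. -/

set_option autoImplicit false
set_option linter.unusedSectionVars false

namespace TorL
open TorM TorG

variable {g : ℕ} [NeZero g]

/-- additive invariant functions of two points -/
structure IsC (f : F g → F g → ℚ) : Prop where
  add : ∀ x y z, f x y + f y z = f x z
  inv : ∀ k, ph k = 0 → ∀ x y, f (k * x) (k * y) = f x y

theorem IsC.self {f : F g → F g → ℚ} (h : IsC f) (x : F g) : f x x = 0 := by
  have := h.add x x x
  linarith

theorem IsC.symm {f : F g → F g → ℚ} (h : IsC f) (x y : F g) : f y x = - f x y := by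
  have h1 := h.add x y x
  have h2 := h.self x
  linarith

/-- the period of an element of `K` does not depend on the point -/
theorem IsC.per {f : F g → F g → ℚ} (h : IsC f) {k : F g} (hk : ph k = 0) (x y : F g) :
    f x (k * x) = f y (k * y) := by
  have h1 := h.add x y (k * x)
  have h2 := h.add y (k * y) (k * x)
  have h3 := h.inv k hk y x
  have h4 := h.symm x y
  linarith

theorem IsC.per_mul {f : F g → F g → ℚ} (h : IsC f) {k : F g} (hk : ph k = 0) (k' : F g) :
    f 1 (k * k') = f 1 k + f 1 k' := by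
  have h1 := h.add 1 k (k * k')
  have h2 := h.inv k hk 1 k'
  rw [mul_one] at h2
  linarith

theorem IsC.per_inv {f : F g → F g → ℚ} (h : IsC f) {k : F g} (hk : ph k = 0) : f 1 k⁻¹ = - f 1 k := by
  have h1 := h.per_mul hk k⁻¹
  rw [mul_inv_cancel, h.self] at h1
  linarith

theorem IsC.per_zpow {f : F g → F g → ℚ} (h : IsC f) {k : F g} (hk : ph k = 0) (n : ℤ) :
    f 1 (k ^ n) = n * f 1 k := by
  have hz : ∀ n : ℤ, ph (k ^ n) = 0 := fun n => by rw [ph_zpow, hk, mul_zero]
  induction n using Int.induction_on with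
  | zero => rw [zpow_zero, h.self]; simp
  | succ n ih => rw [zpow_add_one, h.per_mul (hz _), ih]; push_cast; ring
  | pred n ih =>
    rw [zpow_sub_one, h.per_mul (hz _), h.per_inv hk, ih]
    push_cast
    ring

/-- the period is invariant under conjugation -/
theorem IsC.per_conj {f : F g → F g → ℚ} (h : IsC f) {k : F g} (hk : ph k = 0) {u : F g} (hu : ph u = 0) :
    f 1 (u * k * u⁻¹) = f 1 k := by
  rw [h.per_mul (by simp [hu, hk]), h.per_mul hu, h.per_inv hu]
  ring

/-- a line of a curve -/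
noncomputable def rD (c : Cv g) : Set (F g) := c.rep.choose

theorem rD_k (c : Cv g) : KCut (rD c) := c.rep.choose_spec.choose

theorem rD_eq (c : Cv g) : cv (rD c) (rD_k c) = c := c.rep.choose_spec.choose_spec.symm

theorem rD_orb (c : Cv g) : c.1 = orbK (rD c) := congrArg Subtype.val (rD_eq c).symm

theorem ln_rD {X : Hf g} {c : Cv g} : Ln X.E (rD c) ↔ c ∈ fr X := by
  rw [← cv_mem_fr (rD_k c), rD_eq]

/-- curve of a line -/
theorem mem_orbK_rD {D : Set (F g)} (hD : KCut D) {c : Cv g} : D ∈ orbK (rD c) ↔ cv D hD = c := by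
  rw [← orbK_eq_iff, ← rD_orb]
  constructor
  · intro h
    exact Subtype.ext h
  · rintro rfl
    rfl

section
variable {X : Hf g}

theorem ex_adj (X : Hf g) (c : Cv g) : ∃ q : F g × F g, c ∈ fr X → Adj X.E (rD c) q.1 q.2 ∧ q.1 ∈ X.E.P ∧ q.2 ∉ X.E.P := by
  by_cases h : c ∈ fr X
  · obtain ⟨k, l, h1⟩ := (ln_rD.2 h).adj
    exact ⟨(k, l), fun _ => h1⟩
  · exact ⟨(1, 1), fun hh => absurd hh h⟩

/-- adjacent point outside -/
noncomputable def kk (X : Hf g) (c : Cv g) : F g := (ex_adj X c).choose.1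
/-- adjacent point inside -/
noncomputable def ll (X : Hf g) (c : Cv g) : F g := (ex_adj X c).choose.2

theorem kl_adj {c : Cv g} (h : c ∈ fr X) : Adj X.E (rD c) (kk X c) (ll X c) := ((ex_adj X c).choose_spec h).1
theorem kk_mem {c : Cv g} (h : c ∈ fr X) : kk X c ∈ X.E.P := ((ex_adj X c).choose_spec h).2.1
theorem ll_mem {c : Cv g} (h : c ∈ fr X) : ll X c ∉ X.E.P := ((ex_adj X c).choose_spec h).2.2

/-- rational signed count of the curve -/
noncomputable def cqc (c : Cv g) (x y : F g) : ℚ := (cnt (rD c) x y : ℤ)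

theorem cnt_add {D : Set (F g)} (hD : KCut D) (x y z : F g) : cnt D x y + cnt D y z = cnt D x z :=
  ws_add hD.orb_lf _ x y z

theorem cnt_inv (D : Set (F g)) {k : F g} (hk : ph k = 0) (x y : F g) : cnt D (k * x) (k * y) = cnt D x y := by
  have h := cnt_tr k D (k * x) (k * y)
  rw [inv_mul_cancel_left, inv_mul_cancel_left] at h
  rw [← h]
  unfold cnt
  rw [orbK_eq_of_mem (D := D) (A := TorG.tr k D) ⟨k, hk, rfl⟩]

theorem isC_cqc (c : Cv g) : IsC (cqc c) where
  add x y z := by
    unfold cqc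
    rw [← cnt_add (rD_k c) x y z]
    push_cast
    ring
  inv k hk x y := by
    unfold cqc
    rw [cnt_inv _ hk]

/-- the count of a line vanishes on related pairs -/
theorem cqc_S {c : Cv g} (hc : c ∈ fr X) {x y : F g} (h : X.E.S x y) : cqc c x y = 0 := by
  unfold cqc cnt
  rw [ws_zero, Int.cast_zero]
  rintro D' ⟨k, hk, rfl⟩
  exact ((X.kg.sat_tr hk).2 (ln_rD.2 hc).1).sat x y h

open Classical in
theorem cqc_kl {c c' : Cv g} (hc : c ∈ fr X) (hc' : c' ∈ fr X) :
    cqc c' (kk X c) (ll X c) = if c = c' then 1 else 0 := by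
  have h1 := kl_adj hc
  have h2 := ln_rD.2 hc
  by_cases h : c = c'
  · subst h
    rw [if_pos rfl]
    unfold cqc cnt
    rw [ws_single (D := rD c) _ (mem_orbK_self _), ch_one h1.out h1.inn]
    · norm_num
    · rintro D' ⟨k, hk, rfl⟩ hne
      have h3 : Ln X.E (TorG.tr k (rD c)) := (X.kg.ln_tr hk).2 h2
      refine h1.only X.lf h2.1 h3.1 hne ?_
      intro h4
      rw [h4] at h3
      exact ln_not X.lf h2 h3
  · rw [if_neg h]
    unfold cqc cnt
    rw [ws_zero, Int.cast_zero]
    rintro D' ⟨k, hk, rfl⟩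
    have h3 : Ln X.E (TorG.tr k (rD c')) := (X.kg.ln_tr hk).2 (ln_rD.2 hc')
    refine h1.only X.lf h2.1 h3.1 ?_ ?_
    · intro h4
      apply h
      have h5 : rD c ∈ orbK (rD c') := ⟨k, hk, h4.symm⟩
      rw [mem_orbK_rD (rD_k c), rD_eq] at h5
      exact h5
    · intro h4
      rw [h4] at h3
      exact ln_not X.lf h2 h3

open Classical in
/-- the lines of a half space are the lines of its curves -/
theorem ws_fr {G : Type} [AddCommGroup G] (X : Hf g) (a : Set (F g) → G) (x y : F g) :
    ws (LnS X.E) a x y = ∑ c ∈ fr X, ws (orbK (rD c)) a x y := by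
  unfold ws
  rw [← finsum_sum_comm]
  · refine finsum_congr fun D => ?_
    by_cases hD : D ∈ LnS X.E
    · rw [if_pos hD]
      have hD' : Ln X.E D := hD
      have hk := X.kg.kcut hD'.1
      rw [Finset.sum_eq_single (cv D hk)]
      · rw [if_pos ((mem_orbK_rD hk).2 rfl)]
      · intro c _ hne
        rw [if_neg (fun hh => hne ((mem_orbK_rD hk).1 hh).symm)]
      · intro hh
        exact absurd ((cv_mem_fr hk).2 hD') hh
    · rw [if_neg hD]
      symm
      refine Finset.sum_eq_zero fun c hc => ?_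
      rw [if_neg]
      rintro ⟨k, hk, rfl⟩
      exact hD ((X.kg.ln_tr hk).2 (ln_rD.2 hc))
  · intro c _
    exact ws_supp (rD_k c).orb_lf a x y

/-- the jump of `f` at a line -/
theorem jump_eq {f : F g → F g → ℚ} (hf : IsC f) (h0 : ∀ x y, X.E.S x y → f x y = 0) {D : Set (F g)}
    (hD : Ln X.E D) {k l k' l' : F g} (h : Adj X.E D k l) (h' : Adj X.E D k' l') : f k l = f k' l' := by
  have h1 := h0 _ _ (h.out_unique X.lf hD.1 h')
  have h2 := h0 _ _ (h.inn_unique X.lf hD.1 h')
  have h3 := hf.add k k' l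
  have h4 := hf.add k' l l'
  linarith

/-- **expansion** -/
theorem ze_expand {f : F g → F g → ℚ} (hf : IsC f) (h0 : ∀ x y, X.E.S x y → f x y = 0) (x y : F g) :
    f x y = ∑ c ∈ fr X, f (kk X c) (ll X c) * cqc c x y := by
  classical
  -- the jump function
  let a : Set (F g) → ℚ := fun D => if h : ∃ k l, Ln X.E D ∧ Adj X.E D k l then f h.choose h.choose_spec.choose else 0
  have ha : ∀ D k l, Ln X.E D → Adj X.E D k l → a D = f k l := by
    intro D k l hD hkl
    have h : ∃ k l, Ln X.E D ∧ Adj X.E D k l := ⟨k, l, hD, hkl⟩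
    show (if h : ∃ k l, Ln X.E D ∧ Adj X.E D k l then f h.choose h.choose_spec.choose else 0) = f k l
    rw [dif_pos h]
    exact jump_eq hf h0 hD h.choose_spec.choose_spec.2 hkl
  have h1 := tele X.lf (fun z => f x z) a (fun u v huv => by
    have := hf.add x u v
    have := h0 u v huv
    show f x u = f x v
    linarith) (fun D k l hD hkl => by
    have := hf.add x k l
    rw [ha D k l hD hkl]
    show f x l - f x k = f k l
    linarith) x y
  have h2 : f x y = ws (LnS X.E) a x y := by
    rw [← h1]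
    have := hf.self x
    show f x y = f x y - f x x
    linarith
  rw [h2, ws_fr]
  refine Finset.sum_congr rfl fun c hc => ?_
  have h3 : ∀ D ∈ orbK (rD c), a D = f (kk X c) (ll X c) := by
    rintro D ⟨k, hk, rfl⟩
    rw [ha _ (k * kk X c) (k * ll X c) ((X.kg.ln_tr hk).2 (ln_rD.2 hc)) (X.kg.adj_tr hk (kl_adj hc)),
      hf.inv k hk]
  unfold cqc cnt ws
  have h4 : ∀ D, (if D ∈ orbK (rD c) then ch D x y • a D else 0) =
      f (kk X c) (ll X c) * ((if D ∈ orbK (rD c) then ch D x y • (1 : ℤ) else 0 : ℤ) : ℚ) := by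
    intro D
    by_cases hD : D ∈ orbK (rD c)
    · rw [if_pos hD, if_pos hD, h3 D hD, zsmul_eq_mul, smul_eq_mul, mul_one]
      ring
    · rw [if_neg hD, if_neg hD, Int.cast_zero, mul_zero]
  have h5 := (Int.castAddHom ℚ).map_finsum (ws_supp (rD_k c).orb_lf (fun _ => (1 : ℤ)) x y)
  have h6 : ((∑ᶠ D, (if D ∈ orbK (rD c) then ch D x y • (1 : ℤ) else 0) : ℤ) : ℚ) =
      ∑ᶠ D, (((if D ∈ orbK (rD c) then ch D x y • (1 : ℤ) else 0) : ℤ) : ℚ) := h5
  rw [finsum_congr h4, ← mul_finsum, h6]

/-- the sum of all counts -/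
theorem cqc_sum (X : Hf g) (x y : F g) :
    ∑ c ∈ fr X, cqc c x y = (if ph x ≤ X.J then 1 else 0) - (if ph y ≤ X.J then 1 else 0) := by
  classical
  have h1 := signed X.lf x y
  rw [ws_fr] at h1
  unfold cqc cnt
  rw [← Int.cast_sum, h1]
  push_cast
  simp only [X.lev]

end

end TorL
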