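import Mathlib
import Pool.Agent.Lib.MP_05cdf2_gt.L.Conn

/-! MP_05cdf2_gt, stream N/H (helper49): pieces of `Y - X` are unions of components.

`X ≤ Y`, `D0` a line of `X`, `k0`, `l0` adjacent to it. `pos`: every point is related to `k0` (in `Y`) and to `l0` (in `X`), or
it is behind a bottom, or behind a top of the piece. `comp`: `X` with the bottoms of the piece (and their translates)
replaced by the tops is a half space. -/

set_option autoImplicit false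
set_option linter.unusedSectionVars false

namespace TorL
open TorM TorG

variable {g : ℕ} [NeZero g]

section gp
variable {X Y : GP (F g)}

theorem ln_adj_mem {α : Type} [LinearOrder α] {E : GP α} (hE : LF E) {D : Set α} (hD : Ln E D) {k l : α}
    (h : Adj E D k l) : k ∈ E.P ∧ l ∉ E.P := by
  obtain ⟨k', l', h3, h4, h5⟩ := hD.adj
  have hk : k ∈ E.P := (GP.col (h.out_unique hE hD.1 h3)).2 h4
  exact ⟨hk, h.col.1 hk⟩

/-- only the line separates the adjacent points -/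
theorem ln_only {α : Type} [LinearOrder α] {E : GP α} (hE : LF E) {D D' : Set α} (hD : Ln E D) {k l : α}
    (h : Adj E D k l) (hD' : Ln E D') (hne : D' ≠ D) : k ∈ D' ↔ l ∈ D' := by
  refine h.only hE hD.1 hD'.1 hne ?_
  rintro rfl
  exact ln_not hE hD hD'

/-- crossing argument -/
theorem cross_inn (hY : KG Y) (hle : X ≤ Y) {k l : F g} (hn : Xs X k l = ∅) (hk : k ∈ X.P)
    {G : Set (F g)} (hG : Ln Y G) (hkG : k ∉ G) (hlG : l ∈ G) {k1 l1 : F g} (h1 : Adj Y G k1 l1) : X.S l l1 := by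
  have hl1 := (ln_adj_mem hY.lf hG h1).2
  have hl1X : l1 ∉ X.P := fun hh => hl1 (hle.1 hh)
  have oX : OrbS X G l1 := fun n => S_of_le' hle hl1 (hY.orb_inn hG.1 h1 n)
  by_contra hcon
  obtain ⟨n, m, hcr⟩ := cross_orbit (hY.wcut hG.1) h1.inn hlG hkG
  have hmem : cl X (gn G ^ n * l1) ∈ Xs X k l := by
    refine ⟨_, _, rfl, oX.two n m, hcr, fun hh => ?_, fun hh => ?_⟩
    · exact hl1X ((GP.col (GP.trans (oX n) hh)).2 hk)
    · exact hcon (GP.symm (GP.trans (oX n) hh))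
  rw [hn] at hmem
  exact hmem

/-- **positions** -/
theorem pos_piece (hX : KG X) (hY : KG Y) (hle : X ≤ Y) {D0 : Set (F g)} {k0 l0 : F g} (hD0 : Ln X D0)
    (h0 : Adj X D0 k0 l0) (x : F g) :
    (Y.S x k0 ∧ X.S x l0) ∨
    (∃ D k l, Ln X D ∧ Adj X D k l ∧ Y.S k k0 ∧ X.S l l0 ∧ x ∉ D) ∨
    (∃ G k l, Ln Y G ∧ Adj Y G k l ∧ Y.S k k0 ∧ X.S l l0 ∧ x ∈ G) := by
  obtain ⟨hk0, hl0⟩ := ln_adj_mem hX.lf hD0 h0
  by_cases hYx : Y.S k0 x
  · by_cases hXx : X.S l0 x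
    · exact Or.inl ⟨GP.symm hYx, GP.symm hXx⟩
    · -- the line of `X` around `x`
      right; left
      have hS := gap_sat hXx
      obtain ⟨l, k, h1, h2⟩ := adj_gap hX.lf hXx
      have hlP : l ∉ X.P := fun hh => hl0 ((GP.col h2).2 hh)
      have hkP : k ∈ X.P := by
        have := h1.col
        tauto
      have hLn : Ln X (gap X l0 x)ᶜ := ⟨hS.compl, k, l, h1.compl, hkP⟩
      refine ⟨(gap X l0 x)ᶜ, k, l, hLn, h1.compl, ?_, GP.symm h2, fun hh => hh (mem_gap_self hXx)⟩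
      have hok : OrbS Y (gap X l0 x)ᶜ k := (hX.orb_out hLn.1 h1.compl).mono hle hkP
      by_cases hk0D : k0 ∈ (gap X l0 x)ᶜ
      · exact GP.trans (hok.cross (hX.wcut hLn.1) (GP.symm hYx) (fun hh => hh (mem_gap_self hXx)) hk0D)
          (GP.symm hYx)
      · have e := h0.unique hX.lf hD0.1 hLn.1 hk0D (notMem_gap (GP.refl l0))
        have h3 : Adj X D0 k l := by
          rw [← e]
          exact h1.compl
        exact hle.2 _ _ hkP (h3.out_unique hX.lf hD0.1 h0)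
  · have hG := ln_gap hY.lf (hle.1 hk0) hYx
    obtain ⟨k1, l1, h1, h2⟩ := adj_gap hY.lf hYx
    have hxG : x ∈ gap Y k0 x := mem_gap_self hYx
    have hk0G : k0 ∉ gap Y k0 x := notMem_gap (GP.refl k0)
    have hl1 := (ln_adj_mem hY.lf hG h1).2
    have oX : OrbS X (gap Y k0 x) l1 := fun n => S_of_le' hle hl1 (hY.orb_inn hG.1 h1 n)
    by_cases hl0G : l0 ∈ gap Y k0 x
    · right; right
      exact ⟨_, k1, l1, hG, h1, GP.symm h2, GP.symm (cross_inn hY hle h0.none hk0 hG hk0G hl0G h1), hxG⟩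
    · by_cases hXx : X.S l0 x
      · right; right
        refine ⟨_, k1, l1, hG, h1, GP.symm h2, ?_, hxG⟩
        exact oX.cross (hY.wcut hG.1) hXx hl0G hxG
      · have hS := gap_sat hXx
        obtain ⟨l, k, h3, h4⟩ := adj_gap hX.lf hXx
        have hlP : l ∉ X.P := fun hh => hl0 ((GP.col h4).2 hh)
        have hkP : k ∈ X.P := by
          have := h3.col
          tauto
        have hLn : Ln X (gap X l0 x)ᶜ := ⟨hS.compl, k, l, h3.compl, hkP⟩
        have hxD : x ∉ (gap X l0 x)ᶜ := fun hh => hh (mem_gap_self hXx)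
        have hl0D : l0 ∈ (gap X l0 x)ᶜ := notMem_gap (GP.refl l0)
        have hok : OrbS Y (gap X l0 x)ᶜ k := (hX.orb_out hLn.1 h3.compl).mono hle hkP
        rcases nest_of_le hX.lf hle hLn.1 hG.1 with hn | hn | hn | hn
        · exact absurd (hn hl0D) hl0G
        · exact absurd (hn hxG) hxD
        · -- disjoint: a bottom
          right; left
          refine ⟨_, k, l, hLn, h3.compl, ?_, GP.symm h4, hxD⟩
          by_cases hk0D : k0 ∈ (gap X l0 x)ᶜ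
          · by_cases hc : ∀ z, Y.S k0 z → z ∉ gap X l0 x
            · -- the class of `k0` lies inside: reversed line
              exfalso
              have h5 : gap X l0 x ⊆ gap Y k0 x := sub_gap hS.cvx (mem_gap_self hXx) hc
              have h6 : gap Y k0 x ⊆ gap X l0 x := by
                intro z hz
                by_contra hh
                exact hn z ⟨hh, hz⟩
              have h7 := Set.Subset.antisymm h5 h6
              rw [← h7] at hG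
              have h8 := not_rev hX hY hle hLn
              rw [compl_compl] at h8
              exact h8 hG
            · push Not at hc
              obtain ⟨z, hz1, hz2⟩ := hc
              have h5 := hok.cross (hX.wcut hLn.1) (GP.symm hz1) (fun hh => hh hz2) hk0D
              exact GP.trans h5 (GP.symm hz1)
          · have e := h0.unique hX.lf hD0.1 hLn.1 hk0D hl0D
            have h5 : Adj X D0 k l := by
              rw [← e]
              exact h3.compl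
            exact hle.2 _ _ hkP (h5.out_unique hX.lf hD0.1 h0)
        · -- cover: a top
          right; right
          refine ⟨_, k1, l1, hG, h1, GP.symm h2, ?_, hxG⟩
          by_cases hc : ∀ z, X.S l0 z → z ∉ gap Y k0 x
          · exfalso
            have h5 : gap Y k0 x ⊆ gap X l0 x := sub_gap hG.1.cvx hxG hc
            have h6 : gap X l0 x ⊆ gap Y k0 x := by
              intro z hz
              exact (hn z).resolve_left (fun hh => hh hz)
            have h7 := Set.Subset.antisymm h6 h5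
            rw [← h7] at hG
            have h8 := not_rev hX hY hle hLn
            rw [compl_compl] at h8
            exact h8 hG
          · push Not at hc
            obtain ⟨z, hz1, hz2⟩ := hc
            exact GP.trans (oX.cross (hY.wcut hG.1) hz1 hl0G hz2) (GP.refl l0)

variable (X Y) in
/-- lines of `X` which are translates of bottoms -/
def KB (k0 l0 : F g) (D : Set (F g)) : Prop :=
  Ln X D ∧ ∃ h k l, ph h = 0 ∧ Adj X D k l ∧ Y.S k (h * k0) ∧ X.S l (h * l0)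

variable (X Y) in
/-- lines of `Y` which are translates of tops -/
def KT (k0 l0 : F g) (D : Set (F g)) : Prop :=
  Ln Y D ∧ ∃ h k l, ph h = 0 ∧ Adj Y D k l ∧ Y.S k (h * k0) ∧ X.S l (h * l0)

variable (X Y) in
/-- points of the piece and its translates -/
def KI (k0 l0 : F g) (x : F g) : Prop := ∃ h, ph h = 0 ∧ Y.S x (h * k0) ∧ X.S x (h * l0)

variable (X Y) in
/-- the new lines -/
def LPc (k0 l0 : F g) : Set (Set (F g)) := {D | (Ln X D ∧ ¬ KB X Y k0 l0 D) ∨ KT X Y k0 l0 D}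

variable {k0 l0 : F g} {D0 : Set (F g)}

theorem KB.tr (hX : KG X) (hY : KG Y) {k : F g} (hk : ph k = 0) {D : Set (F g)} (h : KB X Y k0 l0 D) :
    KB X Y k0 l0 (TorG.tr k D) := by
  obtain ⟨h1, h, a, b, h2, h3, h4, h5⟩ := h
  refine ⟨(hX.ln_tr hk).2 h1, k * h, k * a, k * b, by rw [ph_mul, hk, h2, add_zero], hX.adj_tr hk h3, ?_, ?_⟩
  · rw [mul_assoc]
    exact (hY.S_mul hk).2 h4
  · rw [mul_assoc]
    exact (hX.S_mul hk).2 h5

theorem KT.tr (hX : KG X) (hY : KG Y) {k : F g} (hk : ph k = 0) {D : Set (F g)} (h : KT X Y k0 l0 D) :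
    KT X Y k0 l0 (TorG.tr k D) := by
  obtain ⟨h1, h, a, b, h2, h3, h4, h5⟩ := h
  refine ⟨(hY.ln_tr hk).2 h1, k * h, k * a, k * b, by rw [ph_mul, hk, h2, add_zero], hY.adj_tr hk h3, ?_, ?_⟩
  · rw [mul_assoc]
    exact (hY.S_mul hk).2 h4
  · rw [mul_assoc]
    exact (hX.S_mul hk).2 h5

theorem KI.mul (hX : KG X) (hY : KG Y) {k : F g} (hk : ph k = 0) {x : F g} (h : KI X Y k0 l0 x) :
    KI X Y k0 l0 (k * x) := by
  obtain ⟨h, h2, h4, h5⟩ := h
  refine ⟨k * h, by rw [ph_mul, hk, h2, add_zero], ?_, ?_⟩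
  · rw [mul_assoc]
    exact (hY.S_mul hk).2 h4
  · rw [mul_assoc]
    exact (hX.S_mul hk).2 h5

theorem KI.mem (hY : KG Y) (hk0 : k0 ∈ Y.P) {x : F g} (h : KI X Y k0 l0 x) : x ∈ Y.P := by
  obtain ⟨h, h2, h4, h5⟩ := h
  exact (GP.col h4).2 ((hY.P_mul h2).2 hk0)

theorem KI.notMem (hX : KG X) (hl0 : l0 ∉ X.P) {x : F g} (h : KI X Y k0 l0 x) : x ∉ X.P := by
  obtain ⟨h, h2, h4, h5⟩ := h
  exact fun hh => hl0 ((hX.P_mul h2).1 ((GP.col h5).1 hh))

theorem tr_iff_aux {P : Set (F g) → Prop} (h : ∀ k : F g, ph k = 0 → ∀ D, P D → P (TorG.tr k D)) {k : F g}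
    (hk : ph k = 0) {D : Set (F g)} (h1 : P (TorG.tr k D)) : P D := by
  have h2 := h k⁻¹ (by simp [hk]) _ h1
  rwa [tr_tr, inv_mul_cancel, tr_one] at h2

/-- positions with respect to a translate of the piece -/
theorem pos_tr (hX : KG X) (hY : KG Y) (hle : X ≤ Y) (hD0 : Ln X D0) (h0 : Adj X D0 k0 l0) {h : F g}
    (hh : ph h = 0) (x : F g) :
    (Y.S x (h * k0) ∧ X.S x (h * l0)) ∨
    (∃ D k l, KB X Y k0 l0 D ∧ Adj X D k l ∧ Y.S k (h * k0) ∧ X.S l (h * l0) ∧ x ∉ D) ∨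
    (∃ G k l, KT X Y k0 l0 G ∧ Adj Y G k l ∧ Y.S k (h * k0) ∧ X.S l (h * l0) ∧ x ∈ G) := by
  rcases pos_piece hX hY hle ((hX.ln_tr hh).2 hD0) (hX.adj_tr hh h0) x with h1 | ⟨D, k, l, h1, h2, h3, h4, h5⟩ |
    ⟨G, k, l, h1, h2, h3, h4, h5⟩
  · exact Or.inl h1
  · exact Or.inr (Or.inl ⟨D, k, l, ⟨h1, h, k, l, hh, h2, h3, h4⟩, h2, h3, h4, h5⟩)
  · exact Or.inr (Or.inr ⟨G, k, l, ⟨h1, h, k, l, hh, h2, h3, h4⟩, h2, h3, h4, h5⟩)

/-- points of `X.P` -/
theorem sc_P (hX : KG X) (hY : KG Y) (hle : X ≤ Y) (hD0 : Ln X D0) (h0 : Adj X D0 k0 l0) {x y : F g}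
    (hx : x ∈ X.P) (hy : y ∉ X.P) (hy' : ¬ KI X Y k0 l0 y) :
    ∃ D ∈ LPc X Y k0 l0, ¬ (x ∈ D ↔ y ∈ D) := by
  by_contra hcon
  push Not at hcon
  induction hn : {D | Ln X D ∧ ¬ (x ∈ D ↔ y ∈ D)}.ncard using Nat.strong_induction_on generalizing x with
  | _ n ih =>
    subst hn
    have hxy : ¬ X.S x y := fun hh => hy ((GP.col hh).1 hx)
    have hD := ln_gap hX.lf hx hxy
    obtain ⟨k, l, hkl, hxk⟩ := adj_gap hX.lf hxy
    have hxD : x ∉ gap X x y := notMem_gap (GP.refl x)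
    have hyD : y ∈ gap X x y := mem_gap_self hxy
    generalize gap X x y = D at hD hkl hxD hyD
    have hDL : D ∉ LPc X Y k0 l0 := fun hh => hxD ((hcon D hh).2 hyD)
    have hKB : KB X Y k0 l0 D := by
      by_contra hh
      exact hDL (Or.inl ⟨hD, hh⟩)
    obtain ⟨-, h, k', l', hh, h3, h4, h5⟩ := hKB
    have hk' : X.S k k' := hkl.out_unique hX.lf hD.1 h3
    have hkP := (ln_adj_mem hX.lf hD hkl).1
    have hxk0 : Y.S x (h * k0) := GP.trans (hle.2 _ _ hx (GP.trans hxk hk')) h4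
    rcases pos_tr hX hY hle hD0 h0 hh y with p | ⟨D2, k2, l2, p1, p2, p3, p4, p5⟩ |
      ⟨G, k2, l2, p1, p2, p3, p4, p5⟩
    · exact hy' ⟨h, hh, p.1, p.2⟩
    · -- behind another bottom
      have hne : D2 ≠ D := by
        rintro rfl
        exact p5 hyD
      have hk2 := (ln_adj_mem hX.lf p1.1 p2).1
      have hll : X.S l2 l' := GP.trans p4 (GP.symm h5)
      -- a line of `X` which separates `k2` from `y` separates `x` from `y`, and it is not `D`
      have hl2D : k2 ∈ D ↔ l2 ∈ D := ln_only hX.lf p1.1 p2 hD hne.symm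
      have hk2D : k2 ∈ D := hl2D.2 ((hD.1.sat _ _ hll).2 h3.inn)
      have key : ∀ L, Ln X L → ¬ (k2 ∈ L ↔ y ∈ L) → L ≠ D ∧ ¬ (x ∈ L ↔ y ∈ L) := by
        intro L hL hs
        have n1 : L ≠ D := by
          rintro rfl
          exact hs (iff_of_true hk2D hyD)
        have n2 : L ≠ D2 := by
          rintro rfl
          exact hs (iff_of_false p2.out p5)
        have e1 := ln_only hX.lf p1.1 p2 hL n2
        have e2 := ln_only hX.lf hD h3 hL n1
        have e3 := hL.1.sat _ _ hll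
        have e4 := hL.1.sat _ _ (GP.trans hxk hk')
        refine ⟨n1, fun hh => hs ?_⟩
        exact e1.trans (e3.trans (e2.symm.trans (e4.symm.trans hh)))
      refine ih _ ?_ hk2 ?_ rfl
      · refine Set.ncard_lt_ncard ⟨?_, ?_⟩ (LnS_lf hX.lf x y)
        · rintro L ⟨a1, a2⟩
          exact ⟨a1, (key L a1 a2).2⟩
        · intro hsub
          have hmem : D ∈ {D | Ln X D ∧ ¬ (x ∈ D ↔ y ∈ D)} := ⟨hD, fun hh => hxD (hh.2 hyD)⟩
          exact (hsub hmem).2 (iff_of_true hk2D hyD)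
      · intro L hL
        by_contra hs
        rcases hL with ⟨a1, a2⟩ | a1
        · exact (key L a1 hs).2 (hcon L (Or.inl ⟨a1, a2⟩))
        · have e1 : k2 ∈ L ↔ x ∈ L := a1.1.1.sat _ _ (GP.trans p3 (GP.symm hxk0))
          exact hs (e1.trans (hcon L (Or.inr a1)))
    · -- behind a top
      have e1 : x ∈ G ↔ y ∈ G := hcon G (Or.inr p1)
      have e2 : x ∈ G ↔ k2 ∈ G := p1.1.1.sat _ _ (GP.trans hxk0 (GP.symm p3))
      exact p2.out (e2.1 (e1.2 p5))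

theorem sc_I (hX : KG X) (hY : KG Y) (hle : X ≤ Y) (hD0 : Ln X D0) (h0 : Adj X D0 k0 l0) {x y : F g}
    (hx : KI X Y k0 l0 x) (hy : y ∉ X.P) (hy' : ¬ KI X Y k0 l0 y) :
    ∃ D ∈ LPc X Y k0 l0, ¬ (x ∈ D ↔ y ∈ D) := by
  obtain ⟨h, hh, h1, h2⟩ := hx
  rcases pos_tr hX hY hle hD0 h0 hh y with p | ⟨D2, k2, l2, p1, p2, p3, p4, p5⟩ |
      ⟨G, k2, l2, p1, p2, p3, p4, p5⟩
  · exact absurd ⟨h, hh, p.1, p.2⟩ hy'
  · have hk2 := (ln_adj_mem hX.lf p1.1 p2).1
    obtain ⟨L, hL, hs⟩ := sc_P hX hY hle hD0 h0 hk2 hy hy'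
    refine ⟨L, hL, fun hxy => hs ?_⟩
    rcases hL with ⟨a1, a2⟩ | a1
    · have n2 : L ≠ D2 := by
        rintro rfl
        exact a2 p1
      have e1 := ln_only hX.lf p1.1 p2 a1 n2
      have e2 := a1.1.sat _ _ (GP.trans p4 (GP.symm h2))
      exact e1.trans (e2.trans hxy)
    · have e1 := a1.1.1.sat _ _ (GP.trans p3 (GP.symm h1))
      exact e1.trans hxy
  · refine ⟨G, Or.inr p1, fun hxy => ?_⟩
    have e2 := p1.1.1.sat _ _ (GP.trans p3 (GP.symm h1))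
    exact p2.out (e2.2 (hxy.2 p5))

/-- reduced pair of a common line -/
theorem red_common (hX : KG X) (hY : KG Y) (hle : X ≤ Y) {D : Set (F g)} (hD : Ln X D) (hD' : Ln Y D) :
    ∃ u v, u ∉ D ∧ v ∈ D ∧ u ∈ X.P ∧ v ∉ Y.P ∧ (∀ D', Ln X D' ∨ Ln Y D' → D' ≠ D → (u ∈ D' ↔ v ∈ D')) := by
  obtain ⟨k, l, hkl, hk, hl⟩ := hD.adj
  obtain ⟨k', l', hkl', hk', hl'⟩ := hD'.adj
  have hw := hX.wcut hD.1
  have o1 : OrbS Y D k := (hX.orb_out hD.1 hkl).mono hle hk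
  have hkk : Y.S k k' := o1.same hw (hY.orb_out hD'.1 hkl') (iff_of_false hkl.out hkl'.out)
  have o2 : OrbS X D l' := fun n => S_of_le' hle hl' (hY.orb_inn hD'.1 hkl' n)
  have hll : X.S l l' := (hX.orb_inn hD.1 hkl).same hw o2 (iff_of_true hkl.inn hkl'.inn)
  refine ⟨k, l', hkl.out, hkl'.inn, hk, hl', ?_⟩
  rintro D' (h3 | h3) hne
  · exact (ln_only hX.lf hD hkl h3 hne).trans (h3.1.sat _ _ hll)
  · exact (h3.1.sat _ _ hkk).trans (ln_only hY.lf hD' hkl' h3 hne)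

/-- no bottom is a line of `Y` -/
theorem not_common (hX : KG X) (hY : KG Y) (hD0 : Ln X D0) (h0 : Adj X D0 k0 l0) (hn : ¬ Ln Y D0)
    {D : Set (F g)} (hD : KB X Y k0 l0 D) : ¬ Ln Y D := by
  intro hD'
  obtain ⟨hDX, h, k, l, hh, hkl, h1, h2⟩ := hD
  have hD0' : Ln X (TorG.tr h D0) := (hX.ln_tr hh).2 hD0
  have hadj := hX.adj_tr hh h0
  have hne : TorG.tr h D0 ≠ D := by
    intro e
    apply hn
    rw [← e] at hD'
    exact (hY.ln_tr hh).1 hD'
  -- `D0' := h D0` does not separate `k`, `l`; `D` does not separate `h k0`, `h l0`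
  have e1 := ln_only hX.lf hDX hkl hD0' hne
  have e2 := ln_only hX.lf hD0' hadj hDX hne.symm
  have e3 : l ∈ TorG.tr h D0 ↔ h * l0 ∈ TorG.tr h D0 := hD0'.1.sat _ _ h2
  have e4 : l ∈ D ↔ h * l0 ∈ D := hDX.1.sat _ _ h2
  have e5 : k ∈ D ↔ h * k0 ∈ D := hD'.1.sat _ _ h1
  exact hkl.out (e5.2 (e2.2 (e4.1 hkl.inn)))

/-- reduced pair of an old line -/
theorem red_old (hX : KG X) (hY : KG Y) (hle : X ≤ Y) (hk0 : k0 ∈ Y.P) {D : Set (F g)} (hD : Ln X D)
    (hn : ¬ KB X Y k0 l0 D) :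
    ∃ u v, u ∉ D ∧ v ∈ D ∧ (u ∈ X.P ∨ KI X Y k0 l0 u) ∧ v ∉ X.P ∧ ¬ KI X Y k0 l0 v ∧
      (∀ D' ∈ LPc X Y k0 l0, D' ≠ D → (u ∈ D' ↔ v ∈ D')) := by
  by_cases hD' : Ln Y D
  · obtain ⟨u, v, a1, a2, a3, a4, a5⟩ := red_common hX hY hle hD hD'
    refine ⟨u, v, a1, a2, Or.inl a3, fun hh => a4 (hle.1 hh), ?_, fun D' hD' hne => a5 D' ?_ hne⟩
    · exact fun hh => a4 (hh.mem hY hk0)
    · rcases hD' with h | h
      · exact Or.inl h.1
      · exact Or.inr h.1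
  · obtain ⟨k, l, hkl⟩ := exists_adj hX.lf hD.1
    obtain ⟨hk, hl⟩ := ln_adj_mem hX.lf hD hkl
    rcases pos_piece hX hY hle hD hkl l with p | ⟨D2, k2, l2, p1, p2, p3, p4, p5⟩ |
      ⟨G, k2, l2, p1, p2, p3, p4, p5⟩
    · refine ⟨k, l, hkl.out, hkl.inn, Or.inl hk, hl, ?_, ?_⟩
      · rintro ⟨h, hh, b1, b2⟩
        exact hn ⟨hD, h, k, l, hh, hkl, GP.trans (GP.symm p.1) b1, b2⟩
      · rintro D' (⟨a1, -⟩ | a1) hne
        · exact ln_only hX.lf hD hkl a1 hne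
        · exact a1.1.1.sat _ _ (GP.symm p.1)
    · exact absurd ((p1.1.sat _ _ p4).1 p2.inn) p5
    · obtain ⟨hk2, hl2⟩ := ln_adj_mem hY.lf p1 p2
      refine ⟨k, l2, hkl.out, (hD.1.sat _ _ p4).2 hkl.inn, Or.inl hk, fun hh => hl2 (hle.1 hh), ?_, ?_⟩
      · exact fun hh => hl2 (hh.mem hY hk0)
      · rintro D' (⟨a1, -⟩ | a1) hne
        · exact (ln_only hX.lf hD hkl a1 hne).trans (a1.1.sat _ _ (GP.symm p4))
        · have e1 : k ∈ D' ↔ k2 ∈ D' := a1.1.1.sat _ _ (GP.symm p3)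
          by_cases hGD : D' = G
          · subst hGD
            exfalso
            obtain ⟨-, h, k3, l3, hh, c1, c2, c3⟩ := a1
            refine hn ⟨hD, h, k, l, hh, hkl, ?_, ?_⟩
            · exact GP.trans (GP.symm p3) (GP.trans (p2.out_unique hY.lf p1.1 c1) c2)
            · exact GP.trans (GP.symm p4) (GP.trans (S_of_le' hle hl2 (p2.inn_unique hY.lf p1.1 c1)) c3)
          · exact e1.trans (ln_only hY.lf p1 p2 a1.1 hGD)

/-- reduced pair of a new line -/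
theorem red_new (hX : KG X) (hY : KG Y) (hle : X ≤ Y) (hk0 : k0 ∈ Y.P) (hD0 : Ln X D0) (h0 : Adj X D0 k0 l0)
    {G : Set (F g)} (hG : KT X Y k0 l0 G) :
    ∃ u v, u ∉ G ∧ v ∈ G ∧ (u ∈ X.P ∨ KI X Y k0 l0 u) ∧ v ∉ X.P ∧ ¬ KI X Y k0 l0 v ∧
      (∀ D' ∈ LPc X Y k0 l0, D' ≠ G → (u ∈ D' ↔ v ∈ D')) := by
  obtain ⟨hGY, h, k, l, hh, hkl, h1, h2⟩ := hG
  obtain ⟨hk, hl⟩ := ln_adj_mem hY.lf hGY hkl
  have hlX : l ∉ X.P := fun hh => hl (hle.1 hh)
  have hlI : ¬ KI X Y k0 l0 l := fun hh => hl (hh.mem hY hk0)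
  rcases pos_tr hX hY hle hD0 h0 hh k with p | ⟨D2, k2, l2, p1, p2, p3, p4, p5⟩ |
      ⟨G2, k2, l2, p1, p2, p3, p4, p5⟩
  · refine ⟨k, l, hkl.out, hkl.inn, Or.inr ⟨h, hh, p.1, p.2⟩, hlX, hlI, ?_⟩
    rintro D' (⟨a1, -⟩ | a1) hne
    · exact a1.1.sat _ _ (GP.trans p.2 (GP.symm h2))
    · exact ln_only hY.lf hGY hkl a1.1 hne
  · obtain ⟨hk2, hl2⟩ := ln_adj_mem hX.lf p1.1 p2
    have hkk : Y.S k2 k := GP.trans p3 (GP.symm h1)
    refine ⟨k2, l, fun hh => hkl.out ((hGY.1.sat _ _ hkk).1 hh), hkl.inn, Or.inl hk2, hlX, hlI, ?_⟩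
    rintro D' (⟨a1, a2⟩ | a1) hne
    · have n2 : D' ≠ D2 := by
        rintro rfl
        exact a2 p1
      exact (ln_only hX.lf p1.1 p2 a1 n2).trans (a1.1.sat _ _ (GP.trans p4 (GP.symm h2)))
    · exact (a1.1.1.sat _ _ hkk).trans (ln_only hY.lf hGY hkl a1.1 hne)
  · exact absurd ((p1.1.1.sat _ _ (GP.trans h1 (GP.symm p3))).1 p5) p2.out

end gp

section hf
variable {X Y : Hf g} {k0 l0 : F g} {D0 : Set (F g)}

open Classical in
variable (X Y) in
/-- the level of the new region -/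
noncomputable def Jz (k0 l0 : F g) : ℤ := if ∃ x, KI X.E Y.E k0 l0 x then Y.J else X.J

theorem mem_Jz (hJ : Y.J ≤ X.J + 1) (hle : X ≤ Y) (hk0 : k0 ∈ Y.E.P) (hl0 : l0 ∉ X.E.P) {x : F g} :
    (x ∈ X.E.P ∨ KI X.E Y.E k0 l0 x) ↔ ph x ≤ Jz X Y k0 l0 := by
  have j1 := Hf.J_le hle
  unfold Jz
  by_cases hex : ∃ x, KI X.E Y.E k0 l0 x
  · rw [if_pos hex]
    obtain ⟨x0, hx0⟩ := hex
    have a1 := hx0.mem Y.kg hk0
    have a2 := hx0.notMem X.kg hl0
    rw [Y.lev] at a1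
    rw [X.lev] at a2
    constructor
    · rintro (h | h)
      · rw [X.lev] at h
        omega
      · exact (Y.lev x).1 (h.mem Y.kg hk0)
    · intro h
      by_cases hx : ph x ≤ X.J
      · exact Or.inl ((X.lev x).2 hx)
      · right
        have e : x = (x * x0⁻¹) * x0 := by group
        rw [e]
        refine hx0.mul X.kg Y.kg ?_
        rw [ph_mul, ph_inv]
        omega
  · rw [if_neg hex, X.lev]
    exact ⟨fun h => h.resolve_right fun hh => hex ⟨x, hh⟩, Or.inl⟩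

theorem fam_pc (hJ : Y.J ≤ X.J + 1) (hle : X ≤ Y) (hD0 : Ln X.E D0) (h0 : Adj X.E D0 k0 l0) :
    LFam (Jz X Y k0 l0) (LPc X.E Y.E k0 l0) := by
  obtain ⟨hk0X, hl0⟩ := ln_adj_mem X.lf hD0 h0
  have hk0 : k0 ∈ Y.E.P := hle.1 hk0X
  have hmem : ∀ D ∈ LPc X.E Y.E k0 l0, Ln X.E D ∨ Ln Y.E D := by
    rintro D (h | h)
    · exact Or.inl h.1
    · exact Or.inr h.1
  have hfin : LFm (LPc X.E Y.E k0 l0) := ((LnS_lf X.lf).union (LnS_lf Y.lf)).mono hmem
  refine ⟨?_, ?_, hfin, ?_, ?_, ?_, ?_, ?_⟩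
  · intro D hD
    rcases hmem D hD with h | h
    · exact h.1.cvx
    · exact h.1.cvx
  · intro D hD D' hD'
    rcases hmem D hD with h | h <;> rcases hmem D' hD' with h' | h'
    · exact nest_sat X.lf h.1 h'.1
    · exact nest_of_le X.lf hle h.1 h'.1
    · exact (nest_of_le X.lf hle h'.1 h.1).symm
    · exact nest_sat Y.lf h.1 h'.1
  · rintro k hk D (⟨h1, h2⟩ | h)
    · refine Or.inl ⟨(X.kg.ln_tr hk).2 h1, fun hh => h2 ?_⟩
      exact tr_iff_aux (P := KB X.E Y.E k0 l0) (fun k hk D hD => hD.tr X.kg Y.kg hk) hk hh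
    · exact Or.inr (h.tr X.kg Y.kg hk)
  · intro D hD
    rcases hmem D hD with h | h
    · exact (X.kg.kcut h.1).zeta
    · exact (Y.kg.kcut h.1).zeta
  · obtain ⟨M, N, hMN⟩ := X.kg.bd
    obtain ⟨M', N', hMN'⟩ := Y.kg.bd
    refine ⟨min M M', max N N', fun D hD x l hx => ?_⟩
    rcases hmem D hD with h | h
    · have := hMN D h.1 x l hx
      omega
    · have := hMN' D h.1 x l hx
      omega
  · intro x y hx hy
    have hx' := (mem_Jz hJ hle hk0 hl0).2 hx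
    have hy' : ¬ (y ∈ X.E.P ∨ KI X.E Y.E k0 l0 y) := fun hh => absurd ((mem_Jz hJ hle hk0 hl0).1 hh) (not_le.2 hy)
    rw [not_or] at hy'
    rcases hx' with h | h
    · exact sc_P X.kg Y.kg hle hD0 h0 h hy'.1 hy'.2
    · exact sc_I X.kg Y.kg hle hD0 h0 h hy'.1 hy'.2
  · intro D hD
    have key : ∃ u v, u ∉ D ∧ v ∈ D ∧ (u ∈ X.E.P ∨ KI X.E Y.E k0 l0 u) ∧ v ∉ X.E.P ∧ ¬ KI X.E Y.E k0 l0 v ∧
      (∀ D' ∈ LPc X.E Y.E k0 l0, D' ≠ D → (u ∈ D' ↔ v ∈ D')) := by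
      rcases hD with ⟨h1, h2⟩ | h1
      · exact red_old X.kg Y.kg hle hk0 h1 h2
      · exact red_new X.kg Y.kg hle hk0 hD0 h0 h1
    obtain ⟨u, v, a1, a2, a3, a4, a5, a6⟩ := key
    refine ⟨u, v, a1, a2, (mem_Jz hJ hle hk0 hl0).1 a3, ?_, a6⟩
    rw [← not_le]
    intro hh
    exact ((mem_Jz hJ hle hk0 hl0).2 hh).elim a4 a5

/-- **the piece of `D0` is a union of components** -/
theorem comp_piece (hJ : Y.J ≤ X.J + 1) (hle : X ≤ Y) (hD0 : Ln X.E D0) (hn : ¬ Ln Y.E D0)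
    (h0 : Adj X.E D0 k0 l0) :
    ∃ z : Hf g, X ≤ z ∧ z ≤ Y ∧ z ≠ X ∧ (∀ c ∈ fr z, c ∈ fr X ∨ c ∈ fr Y) ∧
      (∀ D, Ln z.E D ↔ (Ln X.E D ∧ ¬ KB X.E Y.E k0 l0 D) ∨ KT X.E Y.E k0 l0 D) := by
  obtain ⟨hk0X, hl0⟩ := ln_adj_mem X.lf hD0 h0
  have hk0 : k0 ∈ Y.E.P := hle.1 hk0X
  have hF := fam_pc hJ hle hD0 h0
  have hln : ∀ D, Ln (ofL hF).E D ↔ (Ln X.E D ∧ ¬ KB X.E Y.E k0 l0 D) ∨ KT X.E Y.E k0 l0 D := fun D => ln_ofL hF
  have hP : ∀ x, x ∈ (ofL hF).E.P ↔ (x ∈ X.E.P ∨ KI X.E Y.E k0 l0 x) := by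
    intro x
    rw [(ofL hF).lev, ofL_J, mem_Jz hJ hle hk0 hl0]
  refine ⟨ofL hF, ⟨?_, ?_⟩, ?_, ?_, ?_, hln⟩
  · intro x hx
    exact (hP x).2 (Or.inl hx)
  · intro x y hx hxy
    have hy : y ∈ X.E.P := (GP.col hxy).1 hx
    rw [ofL_S]
    refine ⟨?_, ?_⟩
    · have h1 := (hP x).2 (Or.inl hx)
      have h2 := (hP y).2 (Or.inl hy)
      rw [(ofL hF).lev, ofL_J] at h1 h2
      exact iff_of_true h1 h2
    · rintro D (h | h)
      · exact h.1.1.sat _ _ hxy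
      · exact h.1.1.sat _ _ (hle.2 _ _ hx hxy)
  · -- `z ≤ Y`
    show (ofL hF).E ≤ Y.E
    rw [← dual_le_iff]
    refine ⟨?_, ?_⟩
    · intro x hx hx2
      rcases (hP x).1 hx2 with h | h
      · exact hx (hle.1 h)
      · exact hx (h.mem Y.kg hk0)
    · intro x y hx hxy
      have hxY : x ∉ Y.E.P := hx
      have hxy' : Y.E.S x y := hxy
      have hyY : y ∉ Y.E.P := fun hh => hxY ((GP.col hxy').2 hh)
      show (ofL hF).E.S x y
      rw [ofL_S]
      refine ⟨?_, ?_⟩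
      · have h1 : ¬ (x ∈ (ofL hF).E.P) := by
          rw [hP]
          rintro (h | h)
          · exact hxY (hle.1 h)
          · exact hxY (h.mem Y.kg hk0)
        have h2 : ¬ (y ∈ (ofL hF).E.P) := by
          rw [hP]
          rintro (h | h)
          · exact hyY (hle.1 h)
          · exact hyY (h.mem Y.kg hk0)
        rw [(ofL hF).lev, ofL_J] at h1 h2
        exact iff_of_false h1 h2
      · rintro D (h | h)
        · exact h.1.1.sat _ _ (S_of_le' hle hxY hxy')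
        · exact h.1.1.sat _ _ hxy'
  · intro e
    have h1 : Ln (ofL hF).E D0 := by
      rw [e]
      exact hD0
    rcases (hln D0).1 h1 with h | h
    · exact h.2 ⟨hD0, 1, k0, l0, ph_one, h0, by rw [one_mul]; exact GP.refl _, by rw [one_mul]; exact GP.refl _⟩
    · exact hn h.1
  · intro c hc
    obtain ⟨D, hD, rfl⟩ := c.rep
    rw [cv_mem_fr] at hc
    rw [cv_mem_fr, cv_mem_fr]
    rcases (hln D).1 hc with h | h
    · exact Or.inl h.1
    · exact Or.inr h.1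

end hf

end TorL
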