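import Mathlib
import Pool.Agent.Lib.MP_05cdf2_gt.L6.Pc

/-! MP_05cdf2_gt, stream N/H (helper49): the isolated component.

`zlev`: `A ≤ E`, `E.J = A.J + 1`, no point of `A` is related in `E` to a point of level `E.J`. Then `A` together with the classes
of `E` of level `E.J` is a half space `z`, `A < z ≤ E`, `fr A ⊆ fr z ⊆ fr A ∪ fr E`. -/

set_option autoImplicit false
set_option linter.unusedSectionVars false

namespace TorL
open TorM TorG

variable {g : ℕ} [NeZero g] {A E : Hf g}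

variable (A E) in
/-- lines of `A` and of the classes of level `E.J` -/
def LLev : Set (Set (F g)) := {D | Ln A.E D ∨ (Ln E.E D ∧ ∃ k l, Adj E.E D k l ∧ ph k = E.J)}

theorem fam_lev (hle : A ≤ E) (hJ : E.J = A.J + 1)
    (hs : ∀ x y, x ∈ A.E.P → ph y = E.J → ¬ E.E.S x y) : LFam E.J (LLev A E) := by
  have hmem : ∀ D ∈ LLev A E, Ln A.E D ∨ Ln E.E D := by
    rintro D (h | h)
    · exact Or.inl h
    · exact Or.inr h.1
  have hfin : LFm (LLev A E) := ((LnS_lf A.lf).union (LnS_lf E.lf)).mono hmem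
  have hlev : ∀ x, x ∈ E.E.P → x ∈ A.E.P ∨ ph x = E.J := by
    intro x hx
    rw [E.lev] at hx
    rw [A.lev]
    omega
  refine ⟨?_, ?_, hfin, ?_, ?_, ?_, ?_, ?_⟩
  · intro D hD
    rcases hmem D hD with h | h
    · exact h.1.cvx
    · exact h.1.cvx
  · intro D hD D' hD'
    rcases hmem D hD with h | h <;> rcases hmem D' hD' with h' | h'
    · exact nest_sat A.lf h.1 h'.1
    · exact nest_of_le A.lf hle h.1 h'.1
    · exact (nest_of_le A.lf hle h'.1 h.1).symm
    · exact nest_sat E.lf h.1 h'.1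
  · rintro k hk D (h1 | ⟨h1, a, b, h2, h3⟩)
    · exact Or.inl ((A.kg.ln_tr hk).2 h1)
    · exact Or.inr ⟨(E.kg.ln_tr hk).2 h1, k * a, k * b, E.kg.adj_tr hk h2, by rw [ph_mul, hk, h3, zero_add]⟩
  · intro D hD
    rcases hmem D hD with h | h
    · exact (A.kg.kcut h.1).zeta
    · exact (E.kg.kcut h.1).zeta
  · obtain ⟨M, N, hMN⟩ := A.kg.bd
    obtain ⟨M', N', hMN'⟩ := E.kg.bd
    refine ⟨min M M', max N N', fun D hD x l hx => ?_⟩
    rcases hmem D hD with h | h
    · have := hMN D h.1 x l hx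
      omega
    · have := hMN' D h.1 x l hx
      omega
  · intro x y hx hy
    have hx' := (E.lev x).2 hx
    have hy' : y ∉ E.E.P := fun hh => absurd ((E.lev y).1 hh) (not_le.2 hy)
    rcases hlev x hx' with h | h
    · have hn : ¬ A.E.S x y := fun hh => hy' (hle.1 ((GP.col hh).1 h))
      exact ⟨_, Or.inl (ln_gap A.lf h hn), fun hh => notMem_gap (GP.refl x) (hh.2 (mem_gap_self hn))⟩
    · have hn : ¬ E.E.S x y := fun hh => hy' ((GP.col hh).1 hx')
      obtain ⟨k, l, h1, h2⟩ := adj_gap E.lf hn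
      have hk : ph k = E.J := by
        have hkP := (GP.col h2).1 hx'
        rcases hlev k hkP with h3 | h3
        · exact absurd (GP.symm h2) (hs k x h3 h)
        · exact h3
      exact ⟨_, Or.inr ⟨ln_gap E.lf hx' hn, k, l, h1, hk⟩, fun hh => notMem_gap (GP.refl x) (hh.2 (mem_gap_self hn))⟩
  · have key : ∀ D ∈ LLev A E, ∃ u v, u ∉ D ∧ v ∈ D ∧ u ∈ E.E.P ∧ v ∉ E.E.P ∧
        (∀ D' ∈ LLev A E, D' ≠ D → (u ∈ D' ↔ v ∈ D')) := by
      rintro D (h1 | ⟨h1, k, l, h2, h3⟩)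
      · by_cases hD' : Ln E.E D
        · obtain ⟨u, v, a1, a2, a3, a4, a5⟩ := red_common A.kg E.kg hle h1 hD'
          exact ⟨u, v, a1, a2, hle.1 a3, a4, fun D' hD' hne => a5 D' (hmem D' hD') hne⟩
        · obtain ⟨k, l, hkl⟩ := exists_adj A.lf h1.1
          obtain ⟨hk, hl⟩ := ln_adj_mem A.lf h1 hkl
          rcases pos_piece A.kg E.kg hle h1 hkl l with p | ⟨D2, k2, l2, p1, p2, p3, p4, p5⟩ |
            ⟨G, k2, l2, p1, p2, p3, p4, p5⟩
          · exfalso
            have h4 : l ∈ E.E.P := (GP.col p.1).2 (hle.1 hk)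
            rcases hlev l h4 with h5 | h5
            · exact hl h5
            · exact hs k l hk h5 (GP.symm p.1)
          · exact absurd ((p1.1.sat _ _ p4).1 p2.inn) p5
          · obtain ⟨hk2, hl2⟩ := ln_adj_mem E.lf p1 p2
            refine ⟨k, l2, hkl.out, (h1.1.sat _ _ p4).2 hkl.inn, hle.1 hk, hl2, ?_⟩
            rintro D' (a1 | ⟨a1, k3, l3, a2, a3⟩) hne
            · exact (ln_only A.lf h1 hkl a1 hne).trans (a1.1.sat _ _ (GP.symm p4))
            · have e1 : k ∈ D' ↔ k2 ∈ D' := a1.1.sat _ _ (GP.symm p3)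
              by_cases hGD : D' = G
              · subst hGD
                exfalso
                exact hs k k3 hk a3 (GP.trans (GP.symm p3) (p2.out_unique E.lf p1.1 a2))
              · exact e1.trans (ln_only E.lf p1 p2 a1 hGD)
      · obtain ⟨hk, hl⟩ := ln_adj_mem E.lf h1 h2
        have hkA : k ∉ A.E.P := by
          rw [A.lev]
          omega
        have hlA : l ∉ A.E.P := fun hh => hl (hle.1 hh)
        have hkl : A.E.S k l := by
          rw [A.E.iff]
          refine ⟨iff_of_false hkA hlA, fun a b hab hc hcr => ?_⟩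
          have ha : a ∈ A.E.P := hc.2 hkA
          have hab' := hle.2 a b ha hab
          have hmem : cl E.E a ∈ Xs E.E k l := by
            refine ⟨a, b, rfl, hab', hcr, fun hh => hs a k ha h3 hh, fun hh => ?_⟩
            exact hl ((GP.col hh).1 (hle.1 ha))
          rw [h2.none] at hmem
          exact hmem
        refine ⟨k, l, h2.out, h2.inn, hk, hl, ?_⟩
        rintro D' (a1 | ⟨a1, -⟩) hne
        · exact a1.1.sat _ _ hkl
        · exact ln_only E.lf h1 h2 a1 hne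
    intro D hD
    obtain ⟨u, v, a1, a2, a3, a4, a5⟩ := key D hD
    rw [E.lev] at a3 a4
    exact ⟨u, v, a1, a2, a3, not_le.1 a4, a5⟩

/-- **the isolated component** -/
theorem zlev (hle : A ≤ E) (hJ : E.J = A.J + 1) (hs : ∀ x y, x ∈ A.E.P → ph y = E.J → ¬ E.E.S x y) :
    ∃ z : Hf g, A ≤ z ∧ z ≤ E ∧ z ≠ A ∧ (∀ c ∈ fr A, c ∈ fr z) ∧ (∀ c ∈ fr z, c ∈ fr A ∨ c ∈ fr E) := by
  have hF := fam_lev hle hJ hs
  have hln : ∀ D, Ln (ofL hF).E D ↔ Ln A.E D ∨ (Ln E.E D ∧ ∃ k l, Adj E.E D k l ∧ ph k = E.J) := fun D => ln_ofL hF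
  have hP : ∀ x, x ∈ (ofL hF).E.P ↔ x ∈ E.E.P := by
    intro x
    rw [(ofL hF).lev, ofL_J, E.lev]
  have hlev : ∀ x, x ∈ E.E.P → x ∈ A.E.P ∨ ph x = E.J := by
    intro x hx
    rw [E.lev] at hx
    rw [A.lev]
    omega
  refine ⟨ofL hF, ⟨?_, ?_⟩, ?_, ?_, ?_, ?_⟩
  · intro x hx
    exact (hP x).2 (hle.1 hx)
  · intro x y hx hxy
    have hy : y ∈ A.E.P := (GP.col hxy).1 hx
    rw [ofL_S]
    refine ⟨iff_of_true ((E.lev x).1 (hle.1 hx)) ((E.lev y).1 (hle.1 hy)), ?_⟩
    rintro D (h | h)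
    · exact h.1.sat _ _ hxy
    · exact h.1.1.sat _ _ (hle.2 _ _ hx hxy)
  · show (ofL hF).E ≤ E.E
    rw [← dual_le_iff]
    refine ⟨?_, ?_⟩
    · intro x hx hx2
      exact hx ((hP x).1 hx2)
    · intro x y hx hxy
      have hxY : x ∉ E.E.P := hx
      have hxy' : E.E.S x y := hxy
      have hyY : y ∉ E.E.P := fun hh => hxY ((GP.col hxy').2 hh)
      show (ofL hF).E.S x y
      rw [ofL_S]
      refine ⟨?_, ?_⟩
      · rw [E.lev] at hxY hyY
        exact iff_of_false hxY hyY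
      · rintro D (h | h)
        · exact h.1.sat _ _ (S_of_le' hle hxY hxy')
        · exact h.1.1.sat _ _ hxy'
  · intro e
    have h1 : (ofL hF).J = A.J := by rw [e]
    rw [ofL_J] at h1
    omega
  · intro c hc
    obtain ⟨D, hD, rfl⟩ := c.rep
    rw [cv_mem_fr] at hc ⊢
    exact (hln D).2 (Or.inl hc)
  · intro c hc
    obtain ⟨D, hD, rfl⟩ := c.rep
    rw [cv_mem_fr] at hc
    rw [cv_mem_fr, cv_mem_fr]
    rcases (hln D).1 hc with h | h
    · exact Or.inl h
    · exact Or.inr h.1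

end TorL
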