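import Mathlib
import Pool.Agent.Lib.MP_05cdf2_gt.L6.BL

/-! MP_05cdf2_gt, stream N, part (MV1) (helper49): splitting a cocycle along a half space.

`A ≤ X ≤ B`, `f` vanishes on the `A`-related pairs of colour `A.P` and on the `B`-related pairs outside `B.P`, and the
periods of `f` along the lines of `X` vanish. Then `f = f1 + f2` with `f1` of the same kind for `(A, X)`, `f2` for
`(X, B)`: `mv1`. -/

set_option autoImplicit false
set_option linter.unusedSectionVars false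

namespace TorL
open TorM TorG

variable {g : ℕ} [NeZero g] {X : Hf g}

open Classical in
/-- the value of `f` outside the line `D` -/
noncomputable def va (f : F g → F g → ℚ) (X : Hf g) (D : Set (F g)) : ℚ :=
  if h : ∃ c ∈ fr X, ∃ k, ph k = 0 ∧ D = TorG.tr k (rD c) then f 1 (h.choose_spec.2.choose * kk X h.choose) else 0

theorem per_gn {f : F g → F g → ℚ} (hf : IsC f) {D : Set (F g)} (hD : KCut D) (h0 : f 1 (gn D) = 0) {h : F g}
    (hh : h ∈ stD D) : f 1 h = 0 := by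
  obtain ⟨n, rfl⟩ := (gn_spec hD.wcut).pow h hh
  rw [hf.per_zpow (hD.st (gn_spec hD.wcut).mem), h0, mul_zero]

theorem va_eq {f : F g → F g → ℚ} (hf : IsC f) (hp : ∀ c ∈ fr X, f 1 (gn (rD c)) = 0) {c : Cv g} (hc : c ∈ fr X)
    {k : F g} (hk : ph k = 0) : va f X (TorG.tr k (rD c)) = f 1 (k * kk X c) := by
  have h : ∃ c' ∈ fr X, ∃ k', ph k' = 0 ∧ TorG.tr k (rD c) = TorG.tr k' (rD c') := ⟨c, hc, k, hk, rfl⟩
  unfold va
  rw [dif_pos h]
  have hc' := h.choose_spec.1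
  have h1 := h.choose_spec.2.choose_spec
  generalize h.choose_spec.2.choose = k' at h1 ⊢
  generalize h.choose = c' at h1 hc' ⊢
  obtain ⟨hk', h2⟩ := h1
  have e : c = c' := by
    have h3 : TorG.tr k (rD c) ∈ orbK (rD c') := ⟨k', hk', h2⟩
    have h4 : TorG.tr k (rD c) ∈ orbK (rD c) := ⟨k, hk, rfl⟩
    rw [mem_orbK_rD ((rD_k c).tr k)] at h3 h4
    exact h4.symm.trans h3
  subst e
  have h5 : k⁻¹ * k' ∈ stD (rD c) := by
    rw [mem_stD, ← tr_tr, ← h2, tr_tr, inv_mul_cancel, tr_one]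
  have h6 := per_gn hf (rD_k c) (hp c hc) h5
  have hk2 : ph (k⁻¹ * k') = 0 := by simp [hk, hk']
  -- `f (k z) (k' z) = 0`
  have h7 := hf.per hk2 1 (kk X c)
  rw [mul_one, h6] at h7
  have h8 := hf.inv k hk (kk X c) (k⁻¹ * k' * kk X c)
  have e2 : k * (k⁻¹ * k' * kk X c) = k' * kk X c := by group
  rw [e2, ← h7] at h8
  have h9 := hf.add 1 (k * kk X c) (k' * kk X c)
  linarith

theorem va_tr {f : F g → F g → ℚ} (hf : IsC f) (hp : ∀ c ∈ fr X, f 1 (gn (rD c)) = 0) {D : Set (F g)}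
    (hD : Ln X.E D) {h : F g} (hh : ph h = 0) : va f X (TorG.tr h D) = f 1 h + va f X D := by
  have hk := X.kg.kcut hD.1
  obtain ⟨k, hk0, hDk⟩ : D ∈ orbK (rD (cv D hk)) := (mem_orbK_rD hk).2 rfl
  have hc : cv D hk ∈ fr X := (cv_mem_fr hk).2 hD
  generalize cv D hk = c at hDk hc
  subst hDk
  rw [tr_tr, va_eq hf hp hc (by rw [ph_mul, hh, hk0, add_zero]), va_eq hf hp hc hk0]
  have h1 := hf.add 1 h (h * k * kk X c)
  have h2 := hf.inv h hh 1 (k * kk X c)
  rw [mul_one, ← mul_assoc] at h2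
  linarith

section
variable {α : Type} {G : Type} [AddCommGroup G]

theorem ws_congr {Fm : Set (Set α)} {a b : Set α → G} (h : ∀ D ∈ Fm, a D = b D) (x y : α) :
    ws Fm a x y = ws Fm b x y := by
  classical
  unfold ws
  refine finsum_congr fun D => ?_
  by_cases hD : D ∈ Fm
  · rw [if_pos hD, if_pos hD, h D hD]
  · rw [if_neg hD, if_neg hD]

theorem ws_add_fun {Fm : Set (Set α)} (hF : LFm Fm) (a b : Set α → G) (x y : α) :
    ws Fm (fun D => a D + b D) x y = ws Fm a x y + ws Fm b x y := by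
  classical
  unfold ws
  rw [← finsum_add_distrib (ws_supp hF a x y) (ws_supp hF b x y)]
  refine finsum_congr fun D => ?_
  by_cases hD : D ∈ Fm
  · rw [if_pos hD, if_pos hD, if_pos hD, smul_add]
  · rw [if_neg hD, if_neg hD, if_neg hD, add_zero]

theorem ws_const {Fm : Set (Set α)} (hF : LFm Fm) (q : ℚ) (x y : α) :
    ws Fm (fun _ => q) x y = q * (ws Fm (fun _ => (1 : ℤ)) x y : ℤ) := by
  classical
  have h5 := (Int.castAddHom ℚ).map_finsum (ws_supp hF (fun _ => (1 : ℤ)) x y)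
  have h6 : ((∑ᶠ D, (if D ∈ Fm then ch D x y • (1 : ℤ) else 0) : ℤ) : ℚ) =
      ∑ᶠ D, (((if D ∈ Fm then ch D x y • (1 : ℤ) else 0) : ℤ) : ℚ) := h5
  unfold ws
  rw [h6, mul_finsum]
  · refine finsum_congr fun D => ?_
    by_cases hD : D ∈ Fm
    · rw [if_pos hD, if_pos hD, zsmul_eq_mul, smul_eq_mul, mul_one]
      ring
    · rw [if_neg hD, if_neg hD, Int.cast_zero, mul_zero]

end

theorem ws_inv {h : F g} (hh : ph h = 0) (a : Set (F g) → ℚ) (x y : F g) :
    ws (LnS X.E) a (h * x) (h * y) = ws (LnS X.E) (fun D => a (TorG.tr h D)) x y := by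
  classical
  unfold ws
  rw [← finsum_comp_equiv (trE h)]
  refine finsum_congr fun D => ?_
  show (if TorG.tr h D ∈ LnS X.E then ch (TorG.tr h D) (h * x) (h * y) • a (TorG.tr h D) else 0) = _
  have h1 : TorG.tr h D ∈ LnS X.E ↔ D ∈ LnS X.E := X.kg.ln_tr hh
  rw [ch_tr, inv_mul_cancel_left, inv_mul_cancel_left]
  by_cases hD : D ∈ LnS X.E
  · rw [if_pos hD, if_pos (h1.2 hD)]
  · rw [if_neg hD, if_neg (fun hh => hD (h1.1 hh))]

open Classical in
/-- the first part -/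
noncomputable def f1 (f : F g → F g → ℚ) (X : Hf g) (x y : F g) : ℚ :=
  ws (LnS X.E) (va f X) x y + (if y ∈ X.E.P then f 1 y else 0) - (if x ∈ X.E.P then f 1 x else 0)

theorem f1_isC {f : F g → F g → ℚ} (hf : IsC f) (hp : ∀ c ∈ fr X, f 1 (gn (rD c)) = 0) : IsC (f1 f X) where
  add x y z := by
    unfold f1
    have := ws_add (LnS_lf X.lf) (va f X) x y z
    linarith
  inv h hh x y := by
    classical
    unfold f1
    have e1 : ws (LnS X.E) (va f X) (h * x) (h * y) =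
        f 1 h * ((if x ∈ X.E.P then 1 else 0) - (if y ∈ X.E.P then 1 else 0)) + ws (LnS X.E) (va f X) x y := by
      rw [ws_inv hh, ws_congr (Fm := LnS X.E) (b := fun D => f 1 h + va f X D) (fun D hD => va_tr hf hp hD hh),
        ws_add_fun (LnS_lf X.lf), ws_const (LnS_lf X.lf), signed X.lf]
      push_cast
      ring
    have e2 : ∀ z, h * z ∈ X.E.P ↔ z ∈ X.E.P := fun z => X.kg.P_mul hh
    have e3 : ∀ z, f 1 (h * z) = f 1 h + f 1 z := by
      intro z
      have h1 := hf.add 1 h (h * z)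
      have h2 := hf.inv h hh 1 z
      rw [mul_one] at h2
      linarith
    rw [e1, e3, e3]
    by_cases hx : x ∈ X.E.P <;> by_cases hy : y ∈ X.E.P <;> simp only [e2, hx, hy, if_true, if_false] <;> ring

theorem f1_in {f : F g → F g → ℚ} (hf : IsC f) {x y : F g} (h : X.E.S x y) (hx : x ∈ X.E.P) : f1 f X x y = f x y := by
  classical
  unfold f1
  rw [ws_zero _ fun D' hD' => hD'.1.sat x y h, if_pos hx, if_pos ((GP.col h).1 hx)]
  have := hf.add 1 x y
  linarith

theorem f1_out {f : F g → F g → ℚ} {x y : F g} (h : X.E.S x y) (hx : x ∉ X.E.P) : f1 f X x y = 0 := by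
  classical
  unfold f1
  rw [ws_zero _ fun D' hD' => hD'.1.sat x y h, if_neg hx, if_neg (fun hh => hx ((GP.col h).2 hh))]
  ring

/-- **(MV1)** -/
theorem mv1 {A B : Hf g} (hAX : A ≤ X) (hXB : X ≤ B) {f : F g → F g → ℚ} (hf : IsC f)
    (hz : ∀ x, f x (x * zeta g) = 0) (h1 : ∀ x y, A.E.S x y → x ∈ A.E.P → f x y = 0)
    (h2 : ∀ x y, B.E.S x y → x ∉ B.E.P → f x y = 0) (hp : ∀ c ∈ fr X, f 1 (gn (rD c)) = 0) :
    ∃ f1 f2 : F g → F g → ℚ, IsC f1 ∧ IsC f2 ∧ (∀ x, f1 x (x * zeta g) = 0) ∧ (∀ x, f2 x (x * zeta g) = 0) ∧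
      (∀ x y, f x y = f1 x y + f2 x y) ∧
      (∀ x y, A.E.S x y → x ∈ A.E.P → f1 x y = 0) ∧ (∀ x y, X.E.S x y → x ∉ X.E.P → f1 x y = 0) ∧
      (∀ x y, X.E.S x y → x ∈ X.E.P → f2 x y = 0) ∧ (∀ x y, B.E.S x y → x ∉ B.E.P → f2 x y = 0) := by
  have hi := f1_isC (X := X) hf hp
  have hz1 : ∀ x, f1 f X x (x * zeta g) = 0 := by
    intro x
    by_cases hx : x ∈ X.E.P
    · rw [f1_in hf (X.S_zeta x) hx, hz]
    · exact f1_out (X.S_zeta x) hx
  refine ⟨f1 f X, fun x y => f x y - f1 f X x y, hi, ⟨?_, ?_⟩, hz1, ?_, ?_, ?_, ?_, ?_, ?_⟩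
  · intro x y z
    have e1 := hf.add x y z
    have e2 := hi.add x y z
    show f x y - f1 f X x y + (f y z - f1 f X y z) = f x z - f1 f X x z
    linarith
  · intro k hk x y
    show f (k * x) (k * y) - f1 f X (k * x) (k * y) = f x y - f1 f X x y
    rw [hf.inv k hk, hi.inv k hk]
  · intro x
    show f x _ - f1 f X x _ = 0
    rw [hz, hz1, sub_zero]
  · intro x y
    show f x y = f1 f X x y + (f x y - f1 f X x y)
    ring
  · intro x y hxy hx
    rw [f1_in hf (hAX.2 x y hx hxy) (hAX.1 hx), h1 x y hxy hx]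
  · intro x y hxy hx
    exact f1_out hxy hx
  · intro x y hxy hx
    show f x y - f1 f X x y = 0
    rw [f1_in hf hxy hx, sub_self]
  · intro x y hxy hx
    show f x y - f1 f X x y = 0
    rw [f1_out (S_of_le' hXB hx hxy) (fun hh => hx (hXB.1 hh)), h2 x y hxy hx, sub_zero]

end TorL
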